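import Pool.Agent.T2H72.CK.All

/-!
# A Cauchy integral formula with a real-analytic kernel for a family which is not admissible

(MP_9dd505_an, Q1: the answer is no, already for real-analytic kernels.)

For `μ ∈ ℂ` with `Im μ > 0` the operator `∂₁ + μ ∂₂` is the Cauchy-Riemann operator in the linear
coordinate `ζ = x₁ - x₂ / μ`, so Cauchy's formula holds with the kernel
`1 / (2 π i μ (ζ(x) - ζ(x₀)))`. The family `(1, μ)` in the real algebra `ℂ` is admissible only if
`μ = i`. In the real algebra `ℂ × ℂ` the family `e₁ = (1, 1)`, `e₂ = (i, 1 + i)` has a real-analytic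
Cauchy kernel (component by component), and there is not even a nonzero real matrix `g` for which
`p_j e_l + p_l e_j = 2 g_{jl}` has a solution `p₁, p₂`; so admissibility fails in every system of
linear coordinates. Cauchy's formula is proved here for all compact domains with smooth boundary in
the plane (jump relation for the winding number and Dixon's argument).
-/

set_option autoImplicit false

open Pool.Agent.T2H72.CK

namespace Pool.Agent.Results.MP_9dd505_an.AnalyticKernelNotAdmissible

/-- Sanity check: the closed unit disc is a compact domain with smooth boundary, and the usual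
parametrisation of the unit circle is a positively oriented parametrisation of its boundary; so the
definition of `CauchyFormula` is not vacuous. -/
theorem disc_is_an_instance : S_DSK := pDSK

/-- The scalar case: in the real algebra `ℂ`, for every `μ` with `Im μ > 0` the family `1, μ` has a
real-analytic kernel giving a Cauchy integral formula, and it is admissible only if `μ = i`. -/
theorem scalar_case : ∀ μ : ℂ, 0 < μ.im → LinearIndependent ℝ (![1, μ] : Fin 2 → ℂ) ∧
      (∃ G : Pl → Pl → ℂ,
        AnalyticOnNhd ℝ (fun q : Pl × Pl => G q.1 q.2) {q | q.1 ≠ q.2} ∧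
        ContDiffOn ℝ 1 (fun q : Pl × Pl => G q.1 q.2) {q | q.1 ≠ q.2} ∧
        CauchyFormula ![1, μ] G) ∧
      (Admissible (![1, μ] : Fin 2 → ℂ) → μ = Complex.I) :=
  (final allSCA pANA allPRD pALG).2

/-- **Negative answer to Q1**, with `k = 2`. In the real algebra `A = ℂ × ℂ` there is a linearly
independent family `e₁, e₂` and a kernel `G`, real analytic and in particular of class `C¹` off the
diagonal, which gives a Cauchy integral formula, while the family is not admissible; there are not
even `p₁, p₂ ∈ A` and a nonzero real matrix `g` with `p_j e_l + p_l e_j = 2 g_{jl} 1`. -/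
theorem result :
    ∃ e : Fin 2 → ℂ × ℂ, LinearIndependent ℝ e ∧
      (∃ G : Pl → Pl → ℂ × ℂ,
        AnalyticOnNhd ℝ (fun q : Pl × Pl => G q.1 q.2) {q | q.1 ≠ q.2} ∧
        ContDiffOn ℝ 1 (fun q : Pl × Pl => G q.1 q.2) {q | q.1 ≠ q.2} ∧
        CauchyFormula e G) ∧
      ¬ Admissible e ∧
      ¬ ∃ (p : Fin 2 → ℂ × ℂ) (g : Fin 2 → Fin 2 → ℝ), g ≠ 0 ∧
        ∀ j l, p j * e l + p l * e j = (2 * g j l) • (1 : ℂ × ℂ) :=
  (final allSCA pANA allPRD pALG).1

end Pool.Agent.Results.MP_9dd505_an.AnalyticKernelNotAdmissible
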